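import Pool.Agent.Q247.SY.Stm

set_option autoImplicit false
open scoped NumberField
open NumberField

namespace Q166.SY

open Q247.SY

theorem t_FBALL : Q247.SY.S_FBALL := by
  intro K _ _ C
  have h1 := NumberField.Embeddings.finite_of_norm_le K ℂ C
  refine Set.Finite.subset (h1.preimage (f := fun t : 𝓞 K => (t : K))
    (fun a _ b _ hab => RingOfIntegers.ext hab)) ?_
  intro t ht
  refine ⟨RingOfIntegers.isIntegral_coe t, fun φ => ?_⟩
  have h2 : (InfinitePlace.mk φ) (t : K) ≤ Q247.SY.ht t :=
    Finset.single_le_sum (f := fun w : InfinitePlace K => w (t : K))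
      (fun w _ => apply_nonneg w _) (Finset.mem_univ (InfinitePlace.mk φ))
  rw [InfinitePlace.apply] at h2
  exact h2.trans ht

end Q166.SY
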