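import Mathlib
import Pool.Agent.Q247.SY.Stm

/-!
# Job MASS of project SY (helper247), by helper166
-/

set_option autoImplicit false

namespace Q166.SY

open NumberField NumberField.InfinitePlace NumberField.mixedEmbedding
open scoped NumberField

section

variable {K : Type} [Field K] [NumberField K]

/-- The component of an element of the mixed space at a place, in the complex numbers. -/
noncomputable def cmp (w : InfinitePlace K) : mixedSpace K →ₗ[ℝ] ℂ := by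
  classical
  exact if hw : IsReal w then
    Complex.ofRealCLM.toLinearMap ∘ₗ (LinearMap.proj (⟨w, hw⟩ : {w : InfinitePlace K // IsReal w})) ∘ₗ
      (LinearMap.fst ℝ _ _)
  else (LinearMap.proj (⟨w, not_isReal_iff_isComplex.mp hw⟩ : {w : InfinitePlace K // IsComplex w})) ∘ₗ
      (LinearMap.snd ℝ _ _)

theorem norm_cmp (w : InfinitePlace K) (z : mixedSpace K) : ‖cmp w z‖ = normAtPlace w z := by
  by_cases hw : IsReal w
  · rw [normAtPlace_apply_of_isReal hw]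
    unfold cmp
    rw [dif_pos hw]
    simp
  · rw [normAtPlace_apply_of_isComplex (not_isReal_iff_isComplex.mp hw)]
    unfold cmp
    rw [dif_neg hw]
    simp

variable {F : Type} [Fintype F]

/-- The scaled embedding into a Euclidean space. -/
noncomputable def JJ (τ : F → InfinitePlace K → ℝ) :
    (F → mixedSpace K) →ₗ[ℝ] PiLp 2 (fun _ : F × InfinitePlace K => ℂ) :=
  (WithLp.linearEquiv 2 ℝ (F × InfinitePlace K → ℂ)).symm.toLinearMap ∘ₗ
    LinearMap.pi fun p : F × InfinitePlace K =>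
      (Real.sqrt (τ p.1 p.2))⁻¹ • (cmp p.2 ∘ₗ LinearMap.proj p.1)

theorem JJ_apply (τ : F → InfinitePlace K → ℝ) (z : F → mixedSpace K) (p : F × InfinitePlace K) :
    JJ τ z p = (Real.sqrt (τ p.1 p.2))⁻¹ • cmp p.2 (z p.1) := by
  simp [JJ]

theorem norm_JJ (τ : F → InfinitePlace K → ℝ) (hτ : ∀ l w, 0 < τ l w) (z : F → mixedSpace K) :
    ‖JJ τ z‖ ^ 2 = ∑ l, ∑ w : InfinitePlace K, (normAtPlace w (z l)) ^ 2 / τ l w := by
  rw [PiLp.norm_sq_eq_of_L2, Fintype.sum_prod_type]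
  refine Finset.sum_congr rfl fun l _ => Finset.sum_congr rfl fun w _ => ?_
  rw [JJ_apply, _root_.norm_smul, norm_cmp, mul_pow, norm_inv, inv_pow, Real.norm_eq_abs, sq_abs,
    Real.sq_sqrt (hτ l w).le]
  field_simp

theorem ker_JJ (τ : F → InfinitePlace K → ℝ) (hτ : ∀ l w, 0 < τ l w) :
    LinearMap.ker (JJ τ) = ⊥ := by
  rw [LinearMap.ker_eq_bot']
  intro z hz
  funext l
  show z l = 0
  rw [← forall_normAtPlace_eq_zero_iff]
  intro w
  have h1 : JJ τ z (l, w) = 0 := by rw [hz]; rfl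
  rw [JJ_apply] at h1
  rcases smul_eq_zero.mp h1 with h2 | h2
  · exact absurd h2 (inv_ne_zero (Real.sqrt_pos.mpr (hτ l w)).ne')
  · rw [← norm_cmp, h2, norm_zero]

/-- The embedding of the lattice. -/
noncomputable def io (τ : F → InfinitePlace K → ℝ) (g : F → 𝓞 K) :
    PiLp 2 (fun _ : F × InfinitePlace K => ℂ) :=
  JJ τ fun l => mixedEmbedding K (g l : K)

theorem norm_io (τ : F → InfinitePlace K → ℝ) (hτ : ∀ l w, 0 < τ l w) (g : F → 𝓞 K) :
    ‖io τ g‖ ^ 2 = Q247.SY.QF τ g := by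
  rw [io, norm_JJ τ hτ]
  simp only [normAtPlace_apply]
  rfl

theorem io_sum (τ : F → InfinitePlace K → ℝ) {m : ℕ} (b : Fin m → F → 𝓞 K) (n : Fin m → ℤ) :
    io τ (∑ k, n k • b k) = ∑ k, (n k : ℝ) • io τ (b k) := by
  unfold io
  simp only [← map_smul, ← map_sum]
  congr 1
  funext l
  rw [Finset.sum_apply]
  simp only [Pi.smul_apply, Finset.sum_apply]
  have h1 : ((∑ c, n c • b c l : 𝓞 K) : K) = ∑ c, (n c : K) * (b c l : K) := by
    simp [zsmul_eq_mul]
  rw [h1, map_sum]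
  refine Finset.sum_congr rfl fun k _ => ?_
  rw [map_mul, map_intCast]
  ext w <;> simp

end

theorem t_MASS : Q247.SY.S_MASS := by
  intro hTH1 hTHM hIND K _ _ F _ τ hτ
  obtain ⟨m, b, hb⟩ := hIND K F (⊤ : Submodule ℤ (F → 𝓞 K))
  -- the independent family
  have hγ : LinearIndependent ℝ (fun k => io τ (b k : F → 𝓞 K)) := hb.map' (JJ τ) (ker_JJ τ hτ)
  obtain ⟨κ, c, C, hκ, hc, hC, hmain⟩ := hTHM hTH1
    (PiLp 2 (fun _ : F × InfinitePlace K => ℂ)) m (fun k => io τ (b k : F → 𝓞 K)) hγ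
  -- the parametrization
  let e : (Fin m → ℤ) ≃ (F → 𝓞 K) :=
    (b.equivFun.symm.trans Submodule.topEquiv).toEquiv
  have he : ∀ n : Fin m → ℤ, e n = ∑ k, n k • (b k : F → 𝓞 K) := by
    intro n
    show ((b.equivFun.symm n : (⊤ : Submodule ℤ (F → 𝓞 K))) : F → 𝓞 K) = _
    rw [Module.Basis.equivFun_symm_apply]
    simp
  have hq : ∀ (s : ℝ) (n : Fin m → ℤ), Real.exp (-s * Q247.SY.QF τ (e n)) =
      Real.exp (-s * ‖∑ k, (n k : ℝ) • io τ (b k : F → 𝓞 K) + 0‖ ^ 2) := by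
    intro s n
    rw [add_zero, ← io_sum, ← he, norm_io τ hτ]
  refine ⟨κ + C, m, by positivity, fun s hs hs1 => ?_⟩
  obtain ⟨h1, h2⟩ := hmain s hs hs1 0 (Submodule.zero_mem _)
  have hsum : Summable (fun n : Fin m → ℤ => Real.exp (-s * Q247.SY.QF τ (e n))) := by
    simp only [hq]
    exact h1
  refine ⟨e.summable_iff.mp hsum, ?_⟩
  rw [← e.tsum_eq]
  simp only [hq]
  have h3 := (abs_le.mp h2).2
  have h4 : Real.exp (-c / s) ≤ 1 := by
    apply Real.exp_le_one_iff.mpr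
    exact div_nonpos_of_nonpos_of_nonneg (by linarith) hs.le
  have h5 : (Real.sqrt s)⁻¹ ^ m ≤ s⁻¹ ^ m := by
    have h6 : s ≤ Real.sqrt s := by
      apply Real.le_sqrt_of_sq_le
      nlinarith
    exact pow_le_pow_left₀ (inv_nonneg.mpr (Real.sqrt_nonneg s)) (inv_anti₀ hs h6) m
  have h7 : 0 ≤ (Real.sqrt s)⁻¹ ^ m := pow_nonneg (inv_nonneg.mpr (Real.sqrt_nonneg s)) m
  calc _ ≤ κ * (Real.sqrt s)⁻¹ ^ m + C * Real.exp (-c / s) * (Real.sqrt s)⁻¹ ^ m := by linarith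
    _ ≤ κ * (Real.sqrt s)⁻¹ ^ m + C * 1 * (Real.sqrt s)⁻¹ ^ m := by gcongr
    _ = (κ + C) * (Real.sqrt s)⁻¹ ^ m := by ring
    _ ≤ (κ + C) * s⁻¹ ^ m := by gcongr

end Q166.SY
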