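import Pool.Agent.Q247.SY.Stm

set_option autoImplicit false
open Filter Topology

namespace Q166.SY

open Q247.SY

theorem t_PAR : Q247.SY.S_PAR := by
  intro ρ C₀ C c ε s₀ n B hρ hρ1 hC₀ hC hc hε hs₀
  obtain ⟨p, hp⟩ : ∃ p : ℕ, (n : ℝ) ^ 2 * ρ ^ p ≤ 1 := by
    have h1 : Tendsto (fun p : ℕ => (n : ℝ) ^ 2 * ρ ^ p) atTop (𝓝 ((n : ℝ) ^ 2 * 0)) :=
      (tendsto_pow_atTop_nhds_zero_of_lt_one hρ.le hρ1).const_mul _
    rw [mul_zero] at h1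
    exact (h1.eventually (ge_mem_nhds one_pos)).exists
  set D : ℝ := c * C₀ / C with hD
  have hD0 : 0 < D := by positivity
  set m : ℕ := p + B with hm
  set K₁ : ℝ := C * (C₀ / C) ^ B * D⁻¹ ^ m with hK₁
  have hK₁0 : 0 < K₁ := by positivity
  have hy : Tendsto (fun k : ℕ => D * (ρ ^ k)⁻¹) atTop atTop := by
    have h1 : Tendsto (fun k : ℕ => (ρ⁻¹) ^ k) atTop atTop :=
      tendsto_pow_atTop_atTop_of_one_lt ((one_lt_inv₀ hρ).mpr hρ1)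
    have h2 := h1.const_mul_atTop hD0
    simpa [inv_pow] using h2
  have hlim : Tendsto (fun k : ℕ => K₁ * ((D * (ρ ^ k)⁻¹) ^ m * Real.exp (-(D * (ρ ^ k)⁻¹))))
      atTop (𝓝 0) := by
    have h1 := ((Real.tendsto_pow_mul_exp_neg_atTop_nhds_zero m).comp hy).const_mul K₁
    rw [mul_zero] at h1
    exact h1
  have hs : Tendsto (fun k : ℕ => C * ρ ^ k / C₀) atTop (𝓝 0) := by
    have h1 := ((tendsto_pow_atTop_nhds_zero_of_lt_one hρ.le hρ1).const_mul C).div_const C₀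
    rw [mul_zero, zero_div] at h1
    exact h1
  obtain ⟨k, hk1, hk2⟩ := ((hs.eventually (ge_mem_nhds hs₀)).and
    (hlim.eventually (ge_mem_nhds hε))).exists
  refine ⟨k, hk1, le_trans ?_ hk2⟩
  have hr : 0 < ρ ^ k := by positivity
  -- n^(2k) ≤ (ρ^k)⁻¹ ^ p
  have hn : (n : ℝ) ^ (2 * k) ≤ ((ρ ^ k)⁻¹) ^ p := by
    have h1 : ((n : ℝ) ^ 2 * ρ ^ p) ^ k ≤ 1 := pow_le_one₀ (by positivity) hp
    rw [mul_pow, ← pow_mul, ← pow_mul] at h1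
    rw [inv_pow, ← pow_mul, mul_comm k p, ← one_div, le_div_iff₀ (by positivity)]
    exact h1
  have he : -c / (C * ρ ^ k / C₀) = -(D * (ρ ^ k)⁻¹) := by
    rw [hD]; field_simp
  rw [he]
  have hinv : (C * ρ ^ k / C₀)⁻¹ = (C₀ / C) * (ρ ^ k)⁻¹ := by
    field_simp
  rw [hinv]
  have hE : 0 < Real.exp (-(D * (ρ ^ k)⁻¹)) := Real.exp_pos _
  calc (n : ℝ) ^ (2 * k) * (C * ((C₀ / C) * (ρ ^ k)⁻¹) ^ B * Real.exp (-(D * (ρ ^ k)⁻¹)))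
      ≤ ((ρ ^ k)⁻¹) ^ p * (C * ((C₀ / C) * (ρ ^ k)⁻¹) ^ B * Real.exp (-(D * (ρ ^ k)⁻¹))) :=
        mul_le_mul_of_nonneg_right hn (by positivity)
    _ = K₁ * ((D * (ρ ^ k)⁻¹) ^ m * Real.exp (-(D * (ρ ^ k)⁻¹))) := by
        rw [hK₁, hm, mul_pow, mul_pow, pow_add ((ρ ^ k)⁻¹)]
        have : D⁻¹ ^ (p + B) * D ^ (p + B) = 1 := by
          rw [← mul_pow, inv_mul_cancel₀ hD0.ne', one_pow]
        linear_combination (-(C * (C₀ / C) ^ B * ((ρ ^ k)⁻¹ ^ p * (ρ ^ k)⁻¹ ^ B) *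
          Real.exp (-(D * (ρ ^ k)⁻¹)))) * this

end Q166.SY
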