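import Mathlib
import Pool.Agent.Q247.SY.Stm

/-!
# Job PERT of project SY (helper247), by helper166
-/

set_option autoImplicit false

namespace Q166.SY

open Matrix Topology Filter

/-- The solution by Cramer's rule. -/
noncomputable def csol {n : ℕ} (p : (Fin n → Fin n → ℝ) × (Fin n → ℝ)) : Fin n → ℝ :=
  ((Matrix.of fun i k => p.1 k i).det)⁻¹ • ((Matrix.of fun i k => p.1 k i).adjugate).mulVec p.2

theorem csol_spec {n : ℕ} (p : (Fin n → Fin n → ℝ) × (Fin n → ℝ))
    (h : (Matrix.of fun i k => p.1 k i).det ≠ 0) (i : Fin n) :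
    ∑ k, csol p k * p.1 k i = p.2 i := by
  have h1 : (Matrix.of fun i k => p.1 k i).mulVec (csol p) = p.2 := by
    unfold csol
    rw [Matrix.mulVec_smul, Matrix.mulVec_mulVec, Matrix.mul_adjugate, Matrix.smul_mulVec,
      Matrix.one_mulVec, smul_smul, inv_mul_cancel₀ h, one_smul]
  have h2 := congrFun h1 i
  rw [← h2]
  simp only [Matrix.mulVec, dotProduct, Matrix.of_apply]
  exact Finset.sum_congr rfl fun k _ => mul_comm _ _

theorem det_ne {n : ℕ} (δ : ℝ) (hδ : 0 < δ) :
    (Matrix.of fun i k : Fin n => ((1 : ℝ) + if i = k then δ else 0)).det ≠ 0 := by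
  intro h
  obtain ⟨v, hv, hv0⟩ := Matrix.exists_mulVec_eq_zero_iff.mpr h
  have h1 : ∀ i, ∑ k, v k + δ * v i = 0 := by
    intro i
    have h2 := congrFun hv0 i
    simp only [Matrix.mulVec, dotProduct, Matrix.of_apply, Pi.zero_apply, add_mul, one_mul,
      Finset.sum_add_distrib, ite_mul, zero_mul, Finset.sum_ite_eq, Finset.mem_univ,
      if_true] at h2
    exact h2
  have h3 : (n + δ) * ∑ k, v k = 0 := by
    have h4 : ∑ i : Fin n, (∑ k, v k + δ * v i) = 0 := Finset.sum_eq_zero fun i _ => h1 i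
    rw [Finset.sum_add_distrib, ← Finset.mul_sum, Finset.sum_const, Finset.card_univ,
      Fintype.card_fin, nsmul_eq_mul] at h4
    linarith
  have h5 : ∑ k, v k = 0 := by
    rcases mul_eq_zero.mp h3 with h6 | h6
    · have : (0 : ℝ) ≤ n := Nat.cast_nonneg n
      linarith
    · exact h6
  apply hv
  funext i
  have h7 := h1 i
  rw [h5, zero_add] at h7
  rcases mul_eq_zero.mp h7 with h8 | h8
  · exact absurd h8 hδ.ne'
  · exact h8

theorem t_PERT : Q247.SY.S_PERT := by
  intro n δ hδ
  set p₀ : (Fin n → Fin n → ℝ) × (Fin n → ℝ) :=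
    (fun k i => 1 + if i = k then δ else 0, fun _ => 1) with hp₀
  have hn : (0 : ℝ) < n + δ := by
    have : (0 : ℝ) ≤ n := Nat.cast_nonneg n
    linarith
  have hdet₀ : (Matrix.of fun i k => p₀.1 k i).det ≠ 0 := det_ne δ hδ
  -- the solution at p₀
  have hsol : csol p₀ = fun _ => ((n : ℝ) + δ)⁻¹ := by
    have h1 : (Matrix.of fun i k => p₀.1 k i).mulVec (csol p₀) = p₀.2 := by
      funext i
      have := csol_spec p₀ hdet₀ i
      rw [← this]
      simp only [Matrix.mulVec, dotProduct, Matrix.of_apply]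
      exact Finset.sum_congr rfl fun k _ => mul_comm _ _
    have h2 : (Matrix.of fun i k => p₀.1 k i).mulVec (fun _ => ((n : ℝ) + δ)⁻¹) = p₀.2 := by
      funext i
      simp only [Matrix.mulVec, dotProduct, Matrix.of_apply, hp₀, add_mul, one_mul,
        Finset.sum_add_distrib, ite_mul, zero_mul, Finset.sum_ite_eq, Finset.mem_univ,
        if_true, Finset.sum_const, Finset.card_univ, Fintype.card_fin, nsmul_eq_mul]
      field_simp
    by_contra hne
    apply hdet₀
    apply Matrix.exists_mulVec_eq_zero_iff.mp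
    refine ⟨csol p₀ - fun _ => ((n : ℝ) + δ)⁻¹, sub_ne_zero.mpr hne, ?_⟩
    rw [Matrix.mulVec_sub, h1, h2, sub_self]
  -- continuity
  have hcM : Continuous fun p : (Fin n → Fin n → ℝ) × (Fin n → ℝ) =>
      (Matrix.of fun i k => p.1 k i) := by
    refine continuous_matrix fun i k => ?_
    exact (continuous_apply i).comp ((continuous_apply k).comp continuous_fst)
  have hcd : Continuous fun p : (Fin n → Fin n → ℝ) × (Fin n → ℝ) =>
      (Matrix.of fun i k => p.1 k i).det := hcM.matrix_det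
  have hcs : ContinuousAt (csol (n := n)) p₀ := by
    have e1 : ContinuousAt (fun p : (Fin n → Fin n → ℝ) × (Fin n → ℝ) =>
        ((Matrix.of fun i k => p.1 k i).det)⁻¹) p₀ := (hcd.continuousAt).inv₀ hdet₀
    have e2 : ContinuousAt (fun p : (Fin n → Fin n → ℝ) × (Fin n → ℝ) =>
        ((Matrix.of fun i k => p.1 k i).adjugate).mulVec p.2) p₀ :=
      (hcM.matrix_adjugate.matrix_mulVec continuous_snd).continuousAt
    exact e1.smul e2
  have hev : ∀ᶠ p in 𝓝 p₀, (Matrix.of fun i k => p.1 k i).det ≠ 0 ∧ ∀ k, 0 < csol p k := by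
    refine (hcd.continuousAt.eventually_ne hdet₀).and ?_
    rw [eventually_all]
    intro k
    have h1 : ContinuousAt (fun p => csol p k) p₀ := (continuous_apply k).continuousAt.comp hcs
    refine h1.eventually (lt_mem_nhds ?_)
    show 0 < csol p₀ k
    rw [hsol]
    exact inv_pos.mpr hn
  obtain ⟨ε, hε, hb⟩ := Metric.eventually_nhds_iff.mp hev
  refine ⟨ε / 2, half_pos hε, fun A hA r hr => ?_⟩
  have hd : dist (A, r) p₀ < ε := by
    rw [Prod.dist_eq]
    refine lt_of_le_of_lt (max_le ?_ ?_) (half_lt_self hε)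
    · refine (dist_pi_le_iff (half_pos hε).le).mpr fun k => ?_
      refine (dist_pi_le_iff (half_pos hε).le).mpr fun i => ?_
      rw [Real.dist_eq]
      exact hA k i
    · refine (dist_pi_le_iff (half_pos hε).le).mpr fun i => ?_
      rw [Real.dist_eq]
      exact hr i
  obtain ⟨h1, h2⟩ := hb hd
  exact ⟨csol (A, r), h2, fun i => csol_spec (A, r) h1 i⟩

end Q166.SY
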