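import Pool.Agent.Q247.SY.Stm

set_option autoImplicit false

namespace Q166.SY

open Q247.SY

lemma poly_one (z : ℂ) (b₀ L : ℝ) (hb : 0 ≤ b₀) (h1 : |‖z‖ - b₀| ≤ L) (h2 : L ≤ ‖z‖ + b₀) :
    ∃ u : ℂ, ‖u‖ = 1 ∧ ‖z + (b₀ : ℂ) * u‖ = L := by
  have hcont : Continuous fun θ : ℝ => ‖z + (b₀ : ℂ) * Complex.exp (θ * Complex.I)‖ := by
    fun_prop
  have hz : z = (‖z‖ : ℂ) * Complex.exp (Complex.arg z * Complex.I) :=
    (Complex.norm_mul_exp_arg_mul_I z).symm
  have ha : ‖z + (b₀ : ℂ) * Complex.exp ((Complex.arg z : ℝ) * Complex.I)‖ = ‖z‖ + b₀ := by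
    have e1 : z + (b₀ : ℂ) * Complex.exp ((Complex.arg z : ℝ) * Complex.I) =
        ((‖z‖ + b₀ : ℝ) : ℂ) * Complex.exp ((Complex.arg z : ℝ) * Complex.I) := by
      conv_lhs => rw [hz]
      push_cast
      ring_nf
      simp [Complex.norm_exp_ofReal_mul_I]
      ring_nf
    rw [e1, norm_mul, Complex.norm_exp_ofReal_mul_I, mul_one, Complex.norm_real,
      Real.norm_eq_abs, abs_of_nonneg (by positivity)]
  have hb' : ‖z + (b₀ : ℂ) * Complex.exp ((Complex.arg z + Real.pi : ℝ) * Complex.I)‖ =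
      |‖z‖ - b₀| := by
    have e0 : Complex.exp ((Complex.arg z + Real.pi : ℝ) * Complex.I) =
        -Complex.exp ((Complex.arg z : ℝ) * Complex.I) := by
      push_cast
      rw [add_mul, Complex.exp_add, Complex.exp_pi_mul_I]
      ring
    have e1 : z + (b₀ : ℂ) * Complex.exp ((Complex.arg z + Real.pi : ℝ) * Complex.I) =
        ((‖z‖ - b₀ : ℝ) : ℂ) * Complex.exp ((Complex.arg z : ℝ) * Complex.I) := by
      rw [e0]
      conv_lhs => rw [hz]
      push_cast
      ring_nf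
      simp [Complex.norm_exp_ofReal_mul_I]
      ring_nf
    rw [e1, norm_mul, Complex.norm_exp_ofReal_mul_I, mul_one, Complex.norm_real,
      Real.norm_eq_abs]
  obtain ⟨θ, hθ⟩ := mem_range_of_exists_le_of_exists_ge hcont (c := L)
    ⟨Complex.arg z + Real.pi, by rw [hb']; exact h1⟩ ⟨Complex.arg z, by rw [ha]; exact h2⟩
  exact ⟨Complex.exp (θ * Complex.I), Complex.norm_exp_ofReal_mul_I θ, hθ⟩

lemma poly_gen {ι : Type} [DecidableEq ι] (s : Finset ι) (b : ι → ℝ) (hb : ∀ i, 0 ≤ b i) :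
    ∀ L : ℝ, 0 ≤ L → L ≤ ∑ i ∈ s, b i → (∀ i ∈ s, b i ≤ L + ∑ j ∈ s.erase i, b j) →
      ∃ u : ι → ℂ, (∀ i, ‖u i‖ = 1) ∧ ‖∑ i ∈ s, (b i : ℂ) * u i‖ = L := by
  induction s using Finset.induction_on with
  | empty =>
    intro L h0 h1 _
    refine ⟨fun _ => 1, fun _ => norm_one, ?_⟩
    simp only [Finset.sum_empty] at h1 ⊢
    rw [norm_zero]
    linarith
  | insert i₀ s hi₀ ih =>
    intro L h0 h1 h2
    rw [Finset.sum_insert hi₀] at h1
    have hsum : 0 ≤ ∑ i ∈ s, b i := Finset.sum_nonneg fun i _ => hb i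
    set ℓ : ℝ := min (L + b i₀) (∑ i ∈ s, b i) with hℓ
    have hℓ0 : 0 ≤ ℓ := le_min (by linarith [hb i₀]) hsum
    have hℓs : ℓ ≤ ∑ i ∈ s, b i := min_le_right _ _
    obtain ⟨u, hu, hun⟩ := ih ℓ hℓ0 hℓs (fun i hi => by
      have hne : i ≠ i₀ := fun h => hi₀ (h ▸ hi)
      have h3 := h2 i (Finset.mem_insert_of_mem hi)
      have he : (insert i₀ s).erase i = insert i₀ (s.erase i) :=
        Finset.erase_insert_of_ne hne.symm
      rw [he, Finset.sum_insert (fun h => hi₀ (Finset.mem_of_mem_erase h))] at h3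
      have h4 : 0 ≤ ∑ j ∈ s.erase i, b j := Finset.sum_nonneg fun i _ => hb i
      have h5 : b i ≤ ∑ j ∈ s, b j := Finset.single_le_sum (fun j _ => hb j) hi
      rcases min_choice (L + b i₀) (∑ i ∈ s, b i) with h | h
      · rw [hℓ, h]; linarith
      · rw [hℓ, h]; linarith)
    have h3 := h2 i₀ (Finset.mem_insert_self _ _)
    rw [Finset.erase_insert hi₀] at h3
    have hb0 := hb i₀
    obtain ⟨v, hv, hvn⟩ := poly_one (∑ i ∈ s, (b i : ℂ) * u i) (b i₀) L hb0 (by
      rw [hun, abs_le]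
      rcases min_choice (L + b i₀) (∑ i ∈ s, b i) with h | h
      · constructor
        · rw [hℓ, h]; linarith
        · rw [hℓ, h]; linarith
      · have h6 : ∑ i ∈ s, b i ≤ L + b i₀ := by rw [← h]; exact min_le_left _ _
        constructor
        · rw [hℓ, h]; linarith
        · rw [hℓ, h]; linarith) (by
      rw [hun]
      rcases min_choice (L + b i₀) (∑ i ∈ s, b i) with h | h
      · rw [hℓ, h]; linarith
      · rw [hℓ, h]; linarith)
    refine ⟨Function.update u i₀ v, ?_, ?_⟩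
    · intro i
      by_cases hi : i = i₀
      · rw [hi, Function.update_self]; exact hv
      · rw [Function.update_of_ne hi]; exact hu i
    · rw [Finset.sum_insert hi₀, Function.update_self]
      have h7 : ∑ i ∈ s, (b i : ℂ) * Function.update u i₀ v i = ∑ i ∈ s, (b i : ℂ) * u i := by
        refine Finset.sum_congr rfl fun i hi => ?_
        have hne : i ≠ i₀ := fun h => hi₀ (h ▸ hi)
        rw [Function.update_of_ne hne]
      rw [h7, add_comm]
      exact hvn

theorem t_POLY : Q247.SY.S_POLY := by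
  intro n b hb h
  obtain ⟨u, hu, hn⟩ := poly_gen Finset.univ b hb 0 le_rfl
    (Finset.sum_nonneg fun i _ => hb i) (fun i _ => by rw [zero_add]; exact h i)
  exact ⟨u, hu, norm_eq_zero.mp hn⟩

end Q166.SY
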